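import Pool.Agent.AT12.Stmts3
import Pool.Agent.Helper60_AT8.GEQ
import Pool.Agent.Helper75_PP.Quo
import Pool.Agent.Helper43_AT3.QT2

/-!
# Squad AT12, row AVI: the values of a coherent idempotent at the powers of `y`
-/

open scoped BigOperators

set_option linter.unusedSectionVars false

noncomputable section

namespace Pool.Agent.PP.T12.H38

open Pool.Agent.Helper51_AWC Pool.Agent.Helper79_WRA Pool.Agent.PP Pool.Agent.PP.KF
open Pool.Agent.PP.K9 Pool.Agent.PP.K9.H97 Pool.Agent.PP.H75 Pool.Agent.PP.T3 Pool.Agent.PP.T2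
open Pool.Agent.PP.T8

attribute [local instance] Ideal.Quotient.field

/-- the centraliser of a power of an `ℓ`-element -/
theorem cu_pow' {G : Type} [Group G] {ℓ : ℕ} [Fact ℓ.Prime] {z : G} (hz : El ℓ z) {j : ℕ}
    (hj : ¬ ℓ ∣ j) : Cu (z ^ j) = Cu z := by
  obtain ⟨n, hn⟩ := hz
  have hc : j.Coprime (orderOf z) := by
    have h1 : orderOf z ∣ ℓ ^ n := orderOf_dvd_of_pow_eq_one hn
    have h2 : (ℓ ^ n).Coprime j :=
      Nat.Coprime.pow_left n (((Fact.out : ℓ.Prime).coprime_iff_not_dvd).2 hj)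
    exact (h2.coprime_dvd_left h1).symm
  ext g
  rw [Subgroup.mem_centralizer_singleton_iff, Subgroup.mem_centralizer_singleton_iff]
  constructor
  · intro h
    obtain ⟨k, hk⟩ := exists_pow_eq_self_of_coprime hc
    have h1 : Commute g (z ^ j) := h
    have h2 := h1.pow_right k
    rw [hk] at h2
    exact h2
  · intro h
    have h1 : Commute g z := h
    exact (h1.pow_right j).eq

/-- products of functions supported on a subgroup -/
theorem mulF_restr {F G : Type} [Field F] [Group G] [Finite G] (C : Subgroup G) {a b : G → F}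
    (ha : ∀ g, g ∉ C → a g = 0) :
    mulF (fun c : C => a c) (fun c : C => b c) = fun c : C => mulF a b c := by
  funext c
  unfold mulF
  exact (H60.fsum_supp C (fun t => a t * b (t⁻¹ * (c : G))) (fun g hg => by
    rw [ha g hg, zero_mul])).symm

/-- an element of a group with two commuting descriptions -/
theorem reg_el_one {G : Type} [Group G] {ℓ : ℕ} {z : G} (hr : Reg ℓ z) (hz : El ℓ z) : z = 1 := by
  obtain ⟨n, hn⟩ := hz
  have h1 : orderOf z ∣ ℓ ^ n := orderOf_dvd_of_pow_eq_one hn
  have h2 : (orderOf z).Coprime (ℓ ^ n) := Nat.Coprime.pow_right n hr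
  exact orderOf_eq_one_iff.1 (Nat.Coprime.eq_one_of_dvd h2 h1)

theorem reg_mul {G : Type} [Group G] {ℓ : ℕ} {x y : G} (hx : Reg ℓ x) (hy : Reg ℓ y)
    (h : Commute x y) : Reg ℓ (x * y) := by
  unfold Reg at hx hy ⊢
  exact Nat.Coprime.coprime_dvd_left h.orderOf_mul_dvd_mul_orderOf (Nat.Coprime.mul_left hx hy)

theorem reg_inv {G : Type} [Group G] {ℓ : ℕ} {x : G} (hx : Reg ℓ x) : Reg ℓ x⁻¹ := by
  unfold Reg at hx ⊢
  rwa [orderOf_inv]

theorem avi (lcl : LclStmt) (smi : SmiStmt) (prj : PrjStmt) : AviStmt := by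
  classical
  intro ℓ _ M _ hM G H _ _ _ _ a e V γ y β π m K g hS i hi
  have := Fintype.ofFinite (Cu y)
  have := Fintype.ofFinite H
  obtain ⟨j₀, hj, hjs, hjr, -, -⟩ := lcl ℓ M hM G e V γ hS.ld i hi y hS.mem β hS.lc
  have hEy : El ℓ y := ⟨a, by rw [← hS.qn.ord]; exact pow_orderOf_eq_one y⟩
  -- the residue of `j₀`
  have hrs : rd M j₀ = rs (Cu y) (rd M i) := by
    funext x
    unfold rd rs
    by_cases hx : x ∈ Cu y
    · rw [if_pos hx]
      exact hjr x hx
    · rw [if_neg hx, hjs x hx]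
      exact rr_zero
  have hrb : mulF (rd M j₀) β = rd M j₀ := by
    rw [hrs]
    exact hi.lb y hS.mem β hS.lc
  have hrs0 : ∀ x, x ∉ Cu y → rd M j₀ x = 0 := by
    intro x hx
    rw [hrs]
    unfold rs
    rw [if_neg hx]
  set jc : Cu y → ℂ := fun c => j₀ c with hjc
  have hid : mulF jc jc = jc := by
    rw [hjc, mulF_restr (Cu y) hjs, hj.id]
  set J : H → ℂ := push π jc with hJ
  have hJrm : ∀ h, J h ∈ RM M := by
    intro h
    rw [hJ, push_eq]
    refine Subring.sum_mem _ fun x _ => ?_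
    split_ifs
    · exact hj.rm _
    · exact (RM M).zero_mem
  have hrdJ : rd M J = push π (fun c : Cu y => rd M j₀ c) := by
    funext h
    rw [push_eq]
    unfold rd
    rw [hJ, push_eq, rr_sum _ _ (fun x _ => by
      split_ifs
      · exact hj.rm _
      · exact (RM M).zero_mem)]
    refine Finset.sum_congr rfl fun x _ => ?_
    split_ifs
    · rfl
    · exact rr_zero
  have hVC : ∀ v ∈ V, v ∈ Cu y := by
    intro v hv
    rw [Subgroup.mem_centralizer_singleton_iff]
    exact hS.ld.ab v hv y hS.mem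
  have hIp : Ip M ((V.subgroupOf (Cu y)).map π) J := by
    refine ⟨hJrm, ?_, ?_⟩
    · rw [hJ, ← push_mulF, hid]
    · rintro w ⟨v, hv, rfl⟩ x
      have h1 : cj v⁻¹ jc = jc := by
        funext c
        show j₀ (((v⁻¹)⁻¹ * c * v⁻¹ : Cu y) : G) = j₀ c
        have h2 := hj.iv (v : G) (Subgroup.mem_subgroupOf.1 hv) (c : G)
        rw [← h2]
        congr 1
        push_cast
        rw [inv_inv]
      have h3 := T3.H43.push_cj π v⁻¹ jc
      rw [h1] at h3
      have h4 := congrFun h3 x
      rw [hJ, h4]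
      show push π jc (π v * x * (π v)⁻¹) = push π jc ((π v⁻¹)⁻¹ * x * π v⁻¹)
      rw [map_inv, inv_inv]
  have hJf : mulF (rd M J) (push π (fun t : Cu y => β t)) = rd M J := by
    rw [hrdJ, ← push_mulF, mulF_restr (Cu y) hrs0, hrb]
  obtain ⟨n, hn, hsum⟩ := hS.cd.idm J hIp hJf
  refine ⟨n, hn, fun j hℓj χ hχ => ?_⟩
  have hcu := cu_pow' hEy hℓj
  have hcl : ∀ x y, χ (y * x * y⁻¹) = χ x := fun x y => irr_conj hχ x y
  have hEj : El ℓ (y ^ j) := by
    obtain ⟨k, hk⟩ := hEy
    exact ⟨k, by rw [← pow_mul, mul_comm, pow_mul, hk, one_pow]⟩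
  have hyjV : y ^ j ∈ V := V.pow_mem hS.mem j
  have s1 := smi ℓ M hM G (y ^ j) hEj i j₀ hi.ip.rm hi.ip.id (hi.ip.iv _ hyjV) hj.rm hj.id
    (by rw [hcu]; exact hjs) (by rw [hcu]; exact hjr) χ hcl
  rw [s1]
  have e1 : fv j₀ (y ^ j) χ = ∑ c : Cu y, jc c * χ (y ^ j * c) := by
    unfold fv
    rw [H60.fsum_supp (Cu y) (fun g => j₀ g * χ (y ^ j * g)) (fun g hg => by
      rw [hjs g hg, zero_mul]), finsum_eq_sum_of_fintype]
  -- the class function of `H`
  set r : Cu y → ℂ := fun c => if Reg ℓ c then χ (y ^ j * c) else 0 with hr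
  set th : H → ℂ := push π r with hth
  have hyc : ∀ x : Cu y, (x : G) * y ^ j = y ^ j * x := by
    intro x
    have h1 : Commute (x : G) y := Subgroup.mem_centralizer_singleton_iff.1 x.2
    exact (h1.pow_right j).eq
  have hcc : ∀ x c : Cu y, χ (y ^ j * ((x * c * x⁻¹ : Cu y) : G)) = χ (y ^ j * c) := by
    intro x c
    have h1 : y ^ j * ((x * c * x⁻¹ : Cu y) : G) = x * (y ^ j * c) * (x : G)⁻¹ := by
      push_cast
      rw [← mul_assoc (x : G) (y ^ j), hyc]
      group
    rw [h1, hcl]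
  have hrcj : ∀ x : Cu y, cj x r = r := by
    intro x
    funext c
    show r (x⁻¹ * c * x) = r c
    have h1 : Reg ℓ (x⁻¹ * c * x) ↔ Reg ℓ c := by
      unfold Reg
      have h2 : orderOf (x⁻¹ * c * x) = orderOf c := by
        have h3 : x⁻¹ * c * x = x⁻¹ * c * (x⁻¹)⁻¹ := by rw [inv_inv]
        rw [h3]
        exact MulEquiv.orderOf_eq (MulAut.conj x⁻¹) c
      rw [h2]
    have h4 := hcc x⁻¹ c
    rw [inv_inv] at h4
    simp only [hr]
    by_cases hc : Reg ℓ c
    · rw [if_pos hc, if_pos (h1.2 hc), h4]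
    · rw [if_neg hc, if_neg (fun h => hc (h1.1 h))]
  have hthc : ∀ x z : H, th (z * x * z⁻¹) = th x := by
    intro x z
    obtain ⟨k, rfl⟩ := hS.qn.sur z
    have h3 := T3.H43.push_cj π k⁻¹ r
    rw [hrcj] at h3
    have h4 := congrFun h3 x
    rw [hth, h4]
    show push π r (π k * x * (π k)⁻¹) = push π r ((π k⁻¹)⁻¹ * x * π k⁻¹)
    rw [map_inv, inv_inv]
  have hthr : ∀ c : Cu y, Reg ℓ c → th (π c) = χ (y ^ j * c) := by
    intro c hc
    rw [hth, push_eq, Finset.sum_eq_single c]
    · rw [if_pos rfl]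
      simp only [hr]
      rw [if_pos hc]
    · intro x _ hxc
      by_cases hx : π x = π c
      · rw [if_pos hx]
        simp only [hr]
        by_cases hxr : Reg ℓ x
        · exfalso
          apply hxc
          have h1 : π (x⁻¹ * c) = 1 := by rw [map_mul, map_inv, hx, inv_mul_cancel]
          have h2 := (hS.qn.ker _).1 h1
          obtain ⟨k, hk⟩ := Subgroup.mem_zpowers_iff.1 h2
          have hcomm : Commute x c := by
            have h3 : (c : G) = x * y ^ k := by
              rw [hk]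
              push_cast
              group
            have h4 : Commute (x : G) (c : G) := by
              rw [h3]
              have h5 : Commute (x : G) y := Subgroup.mem_centralizer_singleton_iff.1 x.2
              exact (Commute.refl _).mul_right (h5.zpow_right k)
            exact Subtype.ext h4
          have h6 : Reg ℓ (x⁻¹ * c) := reg_mul (reg_inv hxr) hc hcomm.inv_left
          have h7 : El ℓ (x⁻¹ * c) := by
            obtain ⟨q, hq⟩ := hEy
            refine ⟨q, Subtype.ext ?_⟩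
            push_cast
            have h8 : ((x : G)⁻¹ * c) = y ^ k := by
              rw [hk]
              push_cast
              rfl
            rw [h8, ← zpow_natCast, ← zpow_mul, mul_comm, zpow_mul, zpow_natCast, hq, one_zpow]
          have h9 := reg_el_one h6 h7
          exact (inv_mul_eq_one.1 h9)
        · rw [if_neg hxr]
      · rw [if_neg hx]
    · intro h
      exact absurd (Finset.mem_univ c) h
  have hp := prj ℓ M hM (Cu y) jc (fun c => hj.rm c) hid (fun c => χ (y ^ j * c) - th (π c))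
    (fun x z => by
      show χ (y ^ j * ((z * x * z⁻¹ : Cu y) : G)) - th (π (z * x * z⁻¹)) = _
      rw [hcc, map_mul, map_mul, map_inv, hthc])
    (fun c hc => by
      show χ (y ^ j * c) - th (π c) = 0
      rw [hthr c hc, sub_self])
  rw [finsum_eq_sum_of_fintype] at hp
  have e2 : ∑ c : Cu y, jc c * χ (y ^ j * c) = ∑ c : Cu y, jc c * th (π c) := by
    rw [← sub_eq_zero, ← Finset.sum_sub_distrib, ← hp]
    exact Finset.sum_congr rfl fun c _ => (mul_sub _ _ _).symm
  rw [e1, e2, ← sum_push π jc th, ← hJ, ← finsum_eq_sum_of_fintype, hsum th hthc]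
  refine Finset.sum_congr rfl fun s _ => ?_
  congr 1
  unfold ipn Av
  congr 1
  rw [finsum_eq_sum_of_fintype, hth, sum_push π r (fun x => starRingEnd ℂ (g s x)),
    finsum_eq_sum_of_fintype]
  refine Finset.sum_congr rfl fun c _ => ?_
  rw [finsum_eq_if]
  simp only [hr]
  split_ifs
  · rfl
  · rw [zero_mul]

end Pool.Agent.PP.T12.H38
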