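import Pool.Agent.AT12.Stmts3
import Pool.Agent.Helper50_PP.Ffa

/-!
# Squad AT12, row AVN: the numbers of a fixed character depend only on `j` modulo `ℓ`
-/

open scoped BigOperators

noncomputable section

namespace Pool.Agent.PP.T12.H38

open Pool.Agent.Helper51_AWC Pool.Agent.Helper79_WRA Pool.Agent.PP Pool.Agent.PP.KF
open Pool.Agent.PP.K9 Pool.Agent.PP.K9.H97 Pool.Agent.PP.H75 Pool.Agent.PP.T3 Pool.Agent.PP.T2
open Pool.Agent.PP.T8

attribute [local instance] Ideal.Quotient.field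

theorem avn (csm : CsmStmt) (crg : CrgStmt) : AvnStmt := by
  intro ℓ _ M _ hM G H _ _ _ _ N e V γ b d c ε y w β π m K g θ hS χ hχ j j' hj hjj
  have hF : GoodF ℓ (FF M) := H50.fld ℓ Fact.out M hM
  refine ⟨fun p => ?_, fun k hk => ?_⟩
  · obtain ⟨r, hr⟩ := hS.gs.gen j j' hj hjj
    have hEy : El ℓ y := ⟨2, by rw [← hS.cs.oy]; exact pow_orderOf_eq_one y⟩
    have hchi : ∀ (n : ℕ) (x : G), χ (x ^ N ^ n) = χ x := by
      intro n
      induction n with
      | zero => intro x; rw [pow_zero, pow_one]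
      | succ n ih => intro x; rw [pow_succ, pow_mul, hχ.2, ih]
    have hreg : ∀ (n : ℕ) (x : G), Reg ℓ x → x ^ N ^ n = x := by
      intro n
      induction n with
      | zero => intro x _; rw [pow_zero, pow_one]
      | succ n ih => intro x hx; rw [pow_succ, pow_mul, ih x hx, hS.gs.reg x hx]
    unfold Av
    congr 1
    refine finsum_congr fun s => finsum_congr fun hs => ?_
    congr 1
    have hc : Commute (y ^ j) (s : G) := by
      have h1 : Commute (s : G) y := Subgroup.mem_centralizer_singleton_iff.1 s.2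
      exact (h1.pow_right j).symm
    have hs' : Reg ℓ (s : G) := by
      have h2 : Reg ℓ s := hs
      unfold Reg at h2 ⊢
      rwa [Subgroup.orderOf_coe]
    have h3 : (y ^ j * (s : G)) ^ N ^ r = y ^ j' * s := by
      rw [hc.mul_pow, hr y hEy, hreg r _ hs']
    rw [← h3, hchi]
  · obtain ⟨f, hf⟩ := hS.coh χ hχ.1.1
    have hj' : ¬ ℓ ∣ j' := fun h => hj ((Nat.ModEq.dvd_iff hjj dvd_rfl).2 h)
    have hc := crg ℓ (FF M) hF hS.odd G e V γ hS.sy.ld y w m hS.cs
    have h1 := (csm ℓ (FF M) hF hS.odd G N hS.gs e V γ hS.sy.ld y w m hS.cs f (hf.inv hχ.2)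
      j hj).1 j' k hjj
    have h2 := hf.reg _ (hc.1 j k hj hk)
    have h3 := hf.reg _ (hc.1 j' k hj' hk)
    unfold vk
    rw [← h2, ← h3, h1]

end Pool.Agent.PP.T12.H38
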